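import Pool.Agent.helper14.AV.Spec

/-!
# Row HPL: two segments on different sides of a line
-/

set_option autoImplicit false

namespace Pool.Agent.helper14.AV

theorem HPL : HPL_stmt := by
  intro p X a b ε h1 h2
  rw [Set.disjoint_left]
  rintro z ⟨u, v, hu, hv, huv, hz⟩ ⟨s, t, hs, ht, hst, hz'⟩
  have e1 : z.1 = u * p.1 + v * X.1 := by rw [← hz]; simp
  have e2 : z.2 = u * p.2 + v * X.2 := by rw [← hz]; simp
  have e3 : z.1 = s * a.1 + t * b.1 := by rw [← hz']; simp
  have e4 : z.2 = s * a.2 + t * b.2 := by rw [← hz']; simp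
  have hD : D p X z = 0 := by
    unfold D
    rw [e1, e2]
    have hu' : u = 1 - v := by linarith
    rw [hu']
    ring
  have hD' : D p X z = s * D p X a + t * D p X b := by
    unfold D
    rw [e3, e4]
    have hs' : s = 1 - t := by linarith
    rw [hs']
    ring
  have h3 : s * (ε * D p X a) + t * (ε * D p X b) = 0 := by
    have : s * (ε * D p X a) + t * (ε * D p X b) = ε * (s * D p X a + t * D p X b) := by ring
    rw [this, ← hD', hD, mul_zero]
  rcases lt_or_eq_of_le hs with h4 | h4
  · have h5 := mul_pos h4 h1
    have h6 := mul_nonneg ht h2.le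
    linarith
  · have h5 : t = 1 := by linarith
    rw [← h4, h5] at h3
    linarith

end Pool.Agent.helper14.AV
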